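import Pool.Agent.R246.SK.Defs

open scoped ContDiff ComplexConjugate
open Filter MeasureTheory

namespace Pool.Agent.R451.SK

open Pool.Agent.R246.SK

noncomputable section

lemma sp_of_pp {b : ℝ → ℝ} (hb : PP b) : SP (fun t => (b t : ℂ)) := by
  refine ⟨Complex.ofRealCLM.contDiff.comp hb.1, fun t => ?_⟩
  simp only [hb.2.1 t]

lemma ee_conj (n : ℤ) (t : ℝ) : conj (ee n t) = ee (-n) t := by
  unfold ee
  rw [← Complex.exp_conj]
  congr 1
  simp only [map_mul, Complex.conj_I, Complex.conj_ofReal, map_intCast, Int.cast_neg]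
  ring

lemma ee_norm (n : ℤ) (t : ℝ) : ‖ee n t‖ = 1 := by
  unfold ee
  rw [show Complex.I * (n : ℂ) * (t : ℂ) = (((n : ℝ) * t : ℝ) : ℂ) * Complex.I by
    push_cast; ring]
  exact Complex.norm_exp_ofReal_mul_I _

lemma ac_neg (b : ℝ → ℝ) (n : ℤ) : ac b (-n) = conj (ac b n) := by
  unfold ac fc
  rw [map_mul, Complex.conj_ofReal]
  congr 1
  rw [intervalIntegral.integral_of_le (by positivity), intervalIntegral.integral_of_le (by positivity),
    ← integral_conj]
  congr 1
  funext t
  rw [map_mul, Complex.conj_ofReal, ee_conj]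

/-- the weights -/
def gg (n : ℤ) : ℝ := 1 / (|(n : ℝ)| ^ 3 - |(n : ℝ)|)

lemma trich (n : ℤ) : n = 0 ∨ n = 1 ∨ n = -1 ∨ (2 : ℝ) ≤ |(n : ℝ)| := by
  by_cases h0 : n = 0
  · exact Or.inl h0
  by_cases h1 : n = 1
  · exact Or.inr (Or.inl h1)
  by_cases h2 : n = -1
  · exact Or.inr (Or.inr (Or.inl h2))
  right; right; right
  have h3 : (2 : ℤ) ≤ |n| := by
    rcases lt_or_ge n 0 with h | h
    · rw [abs_of_neg h]; omega
    · rw [abs_of_nonneg h]; omega
  have h4 : ((2 : ℤ) : ℝ) ≤ ((|n| : ℤ) : ℝ) := by exact_mod_cast h3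
  simpa using h4

lemma wpos {x : ℝ} (hx : 2 ≤ x) : x ^ 2 ≤ x ^ 3 - x := by
  nlinarith [mul_nonneg (sub_nonneg.mpr hx) (sub_nonneg.mpr hx), sq_nonneg x,
    mul_nonneg (mul_nonneg (sub_nonneg.mpr hx) (sub_nonneg.mpr hx)) (le_trans (by norm_num : (0:ℝ) ≤ 2) hx)]

lemma gg_nonneg (n : ℤ) : 0 ≤ gg n := by
  unfold gg
  rcases trich n with h | h | h | h
  · subst h; simp
  · subst h; simp
  · subst h; simp
  · have := wpos h
    have h2 : 0 ≤ |(n : ℝ)| ^ 3 - |(n : ℝ)| := le_trans (by positivity) this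
    positivity

lemma gg_summable : Summable gg := by
  refine Summable.of_nonneg_of_le gg_nonneg (fun n => ?_)
    (Real.summable_one_div_int_pow (p := 2) |>.mpr (by norm_num))
  unfold gg
  rcases trich n with h | h | h | h
  · subst h; simp
  · subst h; simp
  · subst h; simp
  · have := wpos h
    have h3 : (n : ℝ) ^ 2 = |(n : ℝ)| ^ 2 := (sq_abs _).symm
    rw [h3]
    exact one_div_le_one_div_of_le (by positivity) this

/-- AM-GM -/
lemma ac_le {b : ℝ → ℝ} (h1 : ac b 1 = 0) (n : ℤ) (hn0 : n ≠ 0) :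
    ‖ac b n‖ ≤ (1 / 2) * (gg n + ZZ b n) := by
  have h1' : ac b (-1) = 0 := by rw [ac_neg, h1, map_zero]
  rcases trich n with h | h | h | h
  · exact absurd h hn0
  · subst h; rw [h1]; simp [gg, ZZ]
  · subst h; rw [h1']; simp [gg, ZZ]
  · have h2 := wpos h
    have h3 : 0 < |(n : ℝ)| ^ 3 - |(n : ℝ)| := lt_of_lt_of_le (by positivity) h2
    unfold gg ZZ
    set w := |(n : ℝ)| ^ 3 - |(n : ℝ)|
    set x := ‖ac b n‖
    have h4 : 0 ≤ (1 - w * x) ^ 2 / w := by positivity
    have h5 : (1 - w * x) ^ 2 / w = 1 / w - 2 * x + w * x ^ 2 := by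
      field_simp
      ring
    rw [h5] at h4
    linarith

lemma zz_nonneg (b : ℝ → ℝ) (n : ℤ) : 0 ≤ ZZ b n := by
  unfold ZZ
  rcases trich n with h | h | h | h
  · subst h; simp
  · subst h; simp
  · subst h; simp
  · have := wpos h
    have h2 : 0 ≤ |(n : ℝ)| ^ 3 - |(n : ℝ)| := le_trans (by positivity) this
    positivity

theorem s_fin (h1 : S_FT1) : S_FIN := by
  intro Z0 L0 hL0
  set K : ℝ := (1 / 2) * (∑' n, gg n + Z0) with hK
  refine ⟨(max (2 * K) (4 * Real.pi / L0)) ^ 2 + 2 * Z0, ?_⟩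
  intro b hb hb1 hs hZ hL
  have hb1' : ac b (-1) = 0 := by rw [ac_neg, hb1, map_zero]
  have hpi := Real.pi_pos
  -- the uniform bound
  have hdev : ∀ t, ‖((b t : ℝ) : ℂ) - ac b 0‖ ≤ K := by
    intro t
    have h2 := (h1 _ (sp_of_pp hb)).2.1 t
    have h3 := hasSum_ite_sub_hasSum h2 0
    have h4 : HasSum (fun n => (1 / 2) * (gg n + ZZ b n)) K := by
      have h5 := (gg_summable.hasSum.add (hZ ▸ hs.hasSum)).mul_left (1 / 2)
      exact h5
    have h6 : ee 0 t = 1 := by unfold ee; simp
    have h7 := h3.norm_le_of_bounded h4 (fun n => by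
      by_cases hn : n = 0
      · rw [if_pos hn, norm_zero]
        have := gg_nonneg n
        have := zz_nonneg b n
        positivity
      · rw [if_neg hn, norm_mul, ee_norm, mul_one]
        exact ac_le hb1 n hn)
    rw [h6, mul_one] at h7
    exact h7
  have hK0 : 0 ≤ K := le_trans (norm_nonneg _) (hdev 0)
  -- the mean is real
  have him : (ac b 0).im = 0 := by
    have h2 := ac_neg b 0
    rw [neg_zero] at h2
    have h3 := congrArg Complex.im h2
    rw [Complex.conj_im] at h3
    linarith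
  set m0 : ℝ := (ac b 0).re with hm0
  have hac0 : ac b 0 = (m0 : ℂ) := by
    apply Complex.ext
    · simp [hm0]
    · simp [him]
  have hdev' : ∀ t, |b t - m0| ≤ K := by
    intro t
    have h2 := hdev t
    rw [hac0, ← Complex.ofReal_sub, Complex.norm_real, Real.norm_eq_abs] at h2
    exact h2
  have hnorm0 : ‖ac b 0‖ ^ 2 ≤ (max (2 * K) (4 * Real.pi / L0)) ^ 2 := by
    rw [hac0, Complex.norm_real, Real.norm_eq_abs]
    apply pow_le_pow_left₀ (abs_nonneg _)
    rw [abs_le]
    constructor
    · have h2 := (abs_le.mp (hdev' 0)).2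
      have h3 := hb.2.2 0
      have h4 := le_max_left (2 * K) (4 * Real.pi / L0)
      linarith
    · by_cases hc : m0 ≤ 2 * K
      · exact le_trans hc (le_max_left _ _)
      · push Not at hc
        refine le_trans ?_ (le_max_right _ _)
        have hm0pos : 0 < m0 := by linarith
        have h2 : ∀ t, m0 / 2 ≤ b t := by
          intro t
          have h3 := (abs_le.mp (hdev' t)).1
          linarith
        have h3 : LL b ≤ ∫ _ in (0 : ℝ)..(2 * Real.pi), 2 / m0 := by
          unfold LL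
          apply intervalIntegral.integral_mono_on (by positivity)
          · apply Continuous.intervalIntegrable
            exact continuous_const.div hb.1.continuous (fun t => (hb.2.2 t).ne')
          · exact intervalIntegrable_const
          · intro t _
            rw [div_le_div_iff₀ (hb.2.2 t) hm0pos]
            have := h2 t
            linarith
        rw [intervalIntegral.integral_const, hL, smul_eq_mul, sub_zero] at h3
        rw [le_div_iff₀ hL0]
        have h4 : L0 * m0 ≤ (2 * Real.pi * (2 / m0)) * m0 := mul_le_mul_of_nonneg_right h3 hm0pos.le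
        have h5 : (2 * Real.pi * (2 / m0)) * m0 = 4 * Real.pi := by
          field_simp
          ring
        rw [h5] at h4
        linarith
  have hle : ∀ n, hn b n ≤ 2 * ZZ b n + (if n = 0 then ‖ac b 0‖ ^ 2 else 0) := by
    intro n
    unfold hn
    rcases trich n with h | h | h | h
    · subst h
      have := zz_nonneg b 0
      rw [if_pos rfl]
      simp only [Int.cast_zero, abs_zero]
      norm_num
      linarith
    · subst h; rw [hb1]; simp [ZZ]
    · subst h; rw [hb1']; simp [ZZ]
    · have h2 : n ≠ 0 := by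
        rintro rfl
        norm_num at h
      rw [if_neg h2, add_zero]
      unfold ZZ
      rw [← mul_assoc]
      apply mul_le_mul_of_nonneg_right _ (by positivity)
      have hw : 1 + 2 * |(n : ℝ)| ≤ |(n : ℝ)| ^ 3 := by
        nlinarith [mul_nonneg (sub_nonneg.mpr h) (sub_nonneg.mpr h),
          mul_nonneg (mul_nonneg (sub_nonneg.mpr h) (sub_nonneg.mpr h))
            (le_trans (by norm_num : (0:ℝ) ≤ 2) h)]
      linarith
  have hhs : HasSum (fun n : ℤ => 2 * ZZ b n + (if n = 0 then ‖ac b 0‖ ^ 2 else 0))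
      (2 * Z0 + ‖ac b 0‖ ^ 2) := by
    refine ((hZ ▸ hs.hasSum).mul_left 2).add ?_
    exact hasSum_ite_eq 0 (‖ac b 0‖ ^ 2)
  have hsum : Summable (hn b) := by
    refine Summable.of_nonneg_of_le (fun n => ?_) hle hhs.summable
    unfold hn
    positivity
  refine ⟨hsum, ?_⟩
  have h9 := hasSum_le hle hsum.hasSum hhs
  linarith

end

end Pool.Agent.R451.SK
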